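import Pool.Agent.Helper69.TPF.St1

/-! # Project TPF, module CAB. -/

set_option autoImplicit false

open scoped commutatorElement ComplexConjugate

namespace Pool.Agent.Helper34.TPF

open Pool.Agent.Helper69.TPF

theorem cCAB (_grd : St_GRD) : St_CAB := by
  classical
  intro E G _ _ _ π a b
  refine ⟨?_, ?_⟩
  · intro x hx
    unfold Cab at hx
    have h1 : ∃ x1 y1 : E, ((if π x1 = a ∧ π y1 = b then MonoidAlgebra.single ⁅x1, y1⁆ 1 else 0 :
        AA E)).coeff x ≠ 0 := by
      by_contra hcon
      push Not at hcon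
      apply hx
      rw [MonoidAlgebra.coeff_sum, Finset.sum_apply']
      refine Finset.sum_eq_zero fun x1 _ => ?_
      rw [MonoidAlgebra.coeff_sum, Finset.sum_apply']
      refine Finset.sum_eq_zero fun y1 _ => ?_
      exact hcon x1 y1
    obtain ⟨x1, y1, h2⟩ := h1
    split_ifs at h2 with h3
    · rw [MonoidAlgebra.coeff_single, Finsupp.single_apply] at h2
      have h4 : ⁅x1, y1⁆ = x := by
        by_contra h5
        exact h2 (if_neg h5)
      rw [← h4, map_commutatorElement, h3.1, h3.2]
    · exact absurd (by simp) h2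
  · intro v hv
    unfold Cab
    have hc : ∀ x : E, π (v * x * v⁻¹) = π x := by
      intro x
      rw [map_mul, map_mul, map_inv, hv, one_mul, inv_one, mul_one]
    have hR : (∑ x : E, ∑ y : E, (if π x = a ∧ π y = b then MonoidAlgebra.single ⁅x, y⁆ 1 else 0 :
        AA E)) = ∑ x : E, ∑ y : E, (if π x = a ∧ π y = b then
          MonoidAlgebra.single ⁅v * x * v⁻¹, v * y * v⁻¹⁆ 1 else 0 : AA E) := by
      rw [← Equiv.sum_comp (MulAut.conj v).toEquiv]
      refine Finset.sum_congr rfl fun x _ => ?_
      rw [← Equiv.sum_comp (MulAut.conj v).toEquiv]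
      refine Finset.sum_congr rfl fun y _ => ?_
      simp only [MulEquiv.toEquiv_eq_coe, MulEquiv.coe_toEquiv, EquivLike.coe_coe,
        MulAut.conj_apply, hc]
    conv_rhs => rw [hR]
    rw [Finset.mul_sum, Finset.sum_mul]
    refine Finset.sum_congr rfl fun x _ => ?_
    rw [Finset.mul_sum, Finset.sum_mul]
    refine Finset.sum_congr rfl fun y _ => ?_
    split_ifs with h
    · rw [MonoidAlgebra.single_mul_single, MonoidAlgebra.single_mul_single]
      congr 1
      simp only [commutatorElement_def]
      group
    · rw [mul_zero, zero_mul]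

end Pool.Agent.Helper34.TPF
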